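import Pool.Agent.AEC.StmtsB

open FirstOrder FirstOrder.Language Cardinal Set

universe u v w x

namespace Pool.Agent.AEC.H52

/-! ### the maps between the finite sets -/

section rho

variable {I : Type v} {J : Type w} {H : Type x} [LinearOrder I] [LinearOrder J] [LinearOrder H]

/-- the increasing enumeration -/
noncomputable def en (s : Finset I) (i : Fin s.card) : I := (s.orderIsoOfFin rfl i : I)

theorem en_mem (s : Finset I) (i : Fin s.card) : en s i ∈ s := (s.orderIsoOfFin rfl i).2

theorem en_inj {s : Finset I} {i j : Fin s.card} (h : en s i = en s j) : i = j :=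
  (s.orderIsoOfFin rfl).injective (Subtype.ext h)

theorem en_lt {s : Finset I} {i j : Fin s.card} : en s i < en s j ↔ i < j :=
  (s.orderIsoOfFin rfl).lt_iff_lt

/-- the map between the index sets induced by `v` -/
noncomputable def rho (a : I ↪o J) (s : Finset I) (t : Finset J) (h : ∀ i ∈ s, a i ∈ t) :
    Fin s.card ↪o Fin t.card :=
  OrderEmbedding.ofMapLEIff
    (fun i => (t.orderIsoOfFin rfl).symm ⟨a (en s i), h _ (en_mem s i)⟩) (by
      intro i j
      rw [OrderIso.le_iff_le, Subtype.mk_le_mk, a.le_iff_le]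
      exact (s.orderIsoOfFin rfl).le_iff_le)

theorem en_rho (a : I ↪o J) (s : Finset I) (t : Finset J) (h : ∀ i ∈ s, a i ∈ t)
    (i : Fin s.card) : en t (rho a s t h i) = a (en s i) := by
  have h1 : t.orderIsoOfFin rfl ((t.orderIsoOfFin rfl).symm ⟨a (en s i), h _ (en_mem s i)⟩) =
      ⟨a (en s i), h _ (en_mem s i)⟩ := OrderIso.apply_symm_apply _ _
  exact congrArg Subtype.val h1

theorem rho_comp (a : I ↪o J) (b : J ↪o H) (c : I ↪o H) (hc : ∀ i, c i = b (a i))
    (s : Finset I) (t : Finset J) (r : Finset H) (h1 : ∀ i ∈ s, a i ∈ t) (h2 : ∀ i ∈ t, b i ∈ r)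
    (h3 : ∀ i ∈ s, c i ∈ r) (i : Fin s.card) :
    rho c s r h3 i = rho b t r h2 (rho a s t h1 i) := by
  apply en_inj
  rw [en_rho, en_rho, en_rho, hc]

end rho

theorem le_mem {I : Type v} {s t : Finset I} (h : s ≤ t) (i : I) (hi : i ∈ s) : i ∈ t :=
  Finset.mem_of_subset h hi

/-- the identity -/
def idE (I : Type v) [LinearOrder I] : I ↪o I := RelEmbedding.refl _

theorem idE_apply (I : Type v) [LinearOrder I] (i : I) : idE I i = i := rfl

variable {L : FirstOrder.Language.{u, u}} {κ : Cardinal.{u}} {K : AEC L κ}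

/-- the direct limit of the members of the template -/
structure DL (T : K.Tmp) (I : Type u) [LinearOrder I] where
  G : K.Mod
  σ : ∀ s : Finset I, K.Hom (T.obj s.card) G
  comp : ∀ (s t : Finset I) (h : ∀ i ∈ s, idE I i ∈ t) (x : (T.obj s.card).α),
    σ t (T.map (rho (idE I) s t h) x) = σ s x
  surj : ∀ y : G.α, ∃ s x, σ s x = y

theorem exists_dl (dlm : DlmStmt.{u}) (T : K.Tmp) (I : Type u) [LinearOrder I] :
    Nonempty (DL T I) := by
  obtain ⟨G, σ, h1, h2⟩ := dlm L κ K (Finset I) (fun s => T.obj s.card)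
    (fun s t h => T.map (rho (idE I) s t fun i hi => le_mem h i hi))
    (by
      intro s x
      exact T.map_id _ _ (fun i => en_inj (by rw [en_rho]; rfl)) x)
    (by
      intro i j k hij hjk x
      exact (T.map_comp _ _ _ (fun y => rho_comp (idE I) (idE I) (idE I) (fun _ => rfl)
        i j k _ _ _ y) x).symm)
  exact ⟨⟨G, σ, fun s t h x => h1 s t (fun i hi => h i hi) x, h2⟩⟩

theorem exists_map (dlu : DluStmt.{u}) {T : K.Tmp} {I J : Type u} [LinearOrder I]
    [LinearOrder J] (DI : DL T I) (DJ : DL T J) (a : I ↪o J) :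
    ∃ w : K.Hom DI.G DJ.G, ∀ (s : Finset I) (t : Finset J) (h : ∀ i ∈ s, a i ∈ t)
      (x : (T.obj s.card).α), w (DI.σ s x) = DJ.σ t (T.map (rho a s t h) x) := by
  classical
  have hm : ∀ s : Finset I, ∀ i ∈ s, a i ∈ s.map a.toEmbedding := fun s i hi =>
    Finset.mem_map_of_mem a.toEmbedding hi
  obtain ⟨w, hw⟩ := dlu L κ K (Finset I) (fun s => T.obj s.card) DI.G DI.σ
    (fun s t h x => ⟨_, DI.comp s t (fun i hi => le_mem h i hi) x⟩) DI.surj DJ.G
    (fun s => (DJ.σ (s.map a.toEmbedding)).comp (T.map (rho a s _ (hm s))))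
    (by
      intro s t hst x y hxy
      have hst' : ∀ i ∈ s, idE I i ∈ t := fun i hi => le_mem hst i hi
      have h1 : y = T.map (rho (idE I) s t hst') x := by
        apply (DI.σ t).injective
        rw [DI.comp]
        exact hxy
      have h2 : ∀ i ∈ s.map a.toEmbedding, idE J i ∈ t.map a.toEmbedding := by
        intro i hi
        obtain ⟨b, hb, rfl⟩ := Finset.mem_map.1 hi
        exact Finset.mem_map_of_mem _ (le_mem hst b hb)
      have h3 : ∀ i ∈ s, a i ∈ t.map a.toEmbedding := fun i hi =>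
        Finset.mem_map_of_mem _ (le_mem hst i hi)
      show DJ.σ _ (T.map _ y) = DJ.σ _ (T.map _ x)
      rw [h1, ← DJ.comp (s.map a.toEmbedding) (t.map a.toEmbedding) h2]
      congr 1
      rw [← T.map_comp _ _ (rho a s _ h3) (fun i => rho_comp (idE I) a a (fun _ => rfl)
        s t _ hst' (hm t) h3 i) x, ← T.map_comp _ _ (rho a s _ h3)
        (fun i => rho_comp a (idE J) a (fun _ => rfl) s _ _ (hm s) h2 h3 i) x])
  refine ⟨w, fun s t h x => ?_⟩
  have h2 : ∀ i ∈ s.map a.toEmbedding, idE J i ∈ t := by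
    intro i hi
    obtain ⟨b, hb, rfl⟩ := Finset.mem_map.1 hi
    exact h b hb
  rw [hw]
  show DJ.σ _ (T.map _ x) = _
  rw [← DJ.comp (s.map a.toEmbedding) t h2]
  congr 1
  exact (T.map_comp _ _ (rho a s t h)
    (fun i => rho_comp a (idE J) a (fun _ => rfl) s _ t (hm s) h2 h i) x).symm

theorem dl_card_le {T : K.Tmp} {I : Type u} [LinearOrder I] (D : DL T I) :
    #D.G.α ≤ #I + κ := by
  have h1 : Function.Surjective (fun p : Σ s : Finset I, (T.obj s.card).α => D.σ p.1 p.2) := by
    intro y
    obtain ⟨s, x, h⟩ := D.surj y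
    exact ⟨⟨s, x⟩, h⟩
  have hκ : ℵ₀ ≤ κ := K.aleph0_le
  have hfin : #(Finset I) ≤ #I + κ := by
    by_cases hI : Infinite I
    · rw [Cardinal.mk_finset_of_infinite]
      exact self_le_add_right _ _
    · haveI : Finite I := not_infinite_iff_finite.1 hI
      exact (Cardinal.lt_aleph0_of_finite _).le.trans (hκ.trans (self_le_add_left _ _))
  have hinf : ℵ₀ ≤ #I + κ := hκ.trans (self_le_add_left _ _)
  calc #D.G.α ≤ #(Σ s : Finset I, (T.obj s.card).α) := Cardinal.mk_le_of_surjective h1
    _ = Cardinal.sum fun s : Finset I => #(T.obj s.card).α := Cardinal.mk_sigma _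
    _ ≤ Cardinal.sum fun _ : Finset I => κ := Cardinal.sum_le_sum _ _ fun s => T.card_le _
    _ = #(Finset I) * κ := by rw [Cardinal.sum_const']
    _ ≤ (#I + κ) * (#I + κ) := mul_le_mul' hfin (self_le_add_left _ _)
    _ = #I + κ := Cardinal.mul_eq_self hinf

/-- the embedding of `Fin 1` with the value `i` -/
def one {n : ℕ} (i : Fin n) : Fin 1 ↪o Fin n :=
  OrderEmbedding.ofMapLEIff (fun _ => i) (by
    intro a b
    simp [Subsingleton.elim a b])

theorem one_apply {n : ℕ} (i : Fin n) (j : Fin 1) : one i j = i := rfl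

theorem dl_le_card {T : K.Tmp} {I : Type u} [LinearOrder I] (D : DL T I) : #I ≤ #D.G.α := by
  classical
  have hc : ∀ i : I, 0 < ({i} : Finset I).card := fun i => by simp
  have hinj : Function.Injective
      (fun i : I => D.σ {i} (T.map (one ⟨0, hc i⟩) T.pt)) := by
    have key : ∀ i j : I, i < j → D.σ {i} (T.map (one ⟨0, hc i⟩) T.pt) ≠
        D.σ {j} (T.map (one ⟨0, hc j⟩) T.pt) := by
      intro i j hij h
      have hcard : ({i, j} : Finset I).card = 2 := Finset.card_pair hij.ne
      have hi : ∀ k ∈ ({i} : Finset I), idE I k ∈ ({i, j} : Finset I) := by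
        intro k hk
        rw [Finset.mem_singleton.1 hk]
        simp [idE_apply]
      have hj : ∀ k ∈ ({j} : Finset I), idE I k ∈ ({i, j} : Finset I) := by
        intro k hk
        rw [Finset.mem_singleton.1 hk]
        simp [idE_apply]
      rw [← D.comp {i} {i, j} hi, ← D.comp {j} {i, j} hj] at h
      have h1 := (D.σ {i, j}).injective h
      set p := rho (idE I) {i} {i, j} hi ⟨0, hc i⟩ with hp
      set q := rho (idE I) {j} {i, j} hj ⟨0, hc j⟩ with hq
      have hpe : en {i, j} p = i := by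
        rw [hp, en_rho]
        exact Finset.mem_singleton.1 (en_mem _ _)
      have hqe : en {i, j} q = j := by
        rw [hq, en_rho]
        exact Finset.mem_singleton.1 (en_mem _ _)
      have hpq : p < q := by
        rw [← en_lt, hpe, hqe]
        exact hij
      let cst : Fin 2 ↪o Fin ({i, j} : Finset I).card :=
        (Fin.castOrderIso hcard.symm).toOrderEmbedding
      have hp0 : (p : ℕ) = 0 := by
        have := q.2
        have h2 : (p : ℕ) < q := hpq
        omega
      have hq1 : (q : ℕ) = 1 := by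
        have := q.2
        have h2 : (p : ℕ) < q := hpq
        omega
      have e1 : T.map (rho (idE I) {i} {i, j} hi) (T.map (one ⟨0, hc i⟩) T.pt) =
          T.map cst (T.map (one (0 : Fin 2)) T.pt) := by
        rw [← T.map_comp (one ⟨0, hc i⟩) _ (one p) (fun _ => rfl),
          ← T.map_comp (one (0 : Fin 2)) cst (one p)]
        intro _
        apply Fin.ext
        rw [one_apply, one_apply, hp0]
        rfl
      have e2 : T.map (rho (idE I) {j} {i, j} hj) (T.map (one ⟨0, hc j⟩) T.pt) =
          T.map cst (T.map (one (1 : Fin 2)) T.pt) := by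
        rw [← T.map_comp (one ⟨0, hc j⟩) _ (one q) (fun _ => rfl),
          ← T.map_comp (one (1 : Fin 2)) cst (one q)]
        intro _
        apply Fin.ext
        rw [one_apply, one_apply, hq1]
        rfl
      rw [e1, e2] at h1
      exact T.pt_ne (one 0) (one 1) rfl rfl ((T.map cst).injective h1)
    intro i j h
    rcases lt_trichotomy i j with h1 | h1 | h1
    · exact absurd h (key i j h1)
    · exact h1
    · exact absurd h.symm (key j i h1)
  exact Cardinal.mk_le_of_injective hinj

theorem fin_emb_id {n : ℕ} (f : Fin n ↪o Fin n) (i : Fin n) : f i = i := by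
  have h1 : Function.Surjective f := Finite.surjective_of_injective f.injective
  have h2 : RelIso.ofSurjective f h1 = OrderIso.refl (Fin n) := Subsingleton.elim _ _
  exact congrArg (fun e : Fin n ≃o Fin n => e i) h2

theorem dl_supp {T : K.Tmp} {I : Type u} [LinearOrder I] (D : DL T I) (s : Finset I)
    (D' : DL T (s : Set I)) (w : K.Hom D'.G D.G)
    (hw : ∀ (r : Finset (s : Set I)) (t : Finset I)
      (h : ∀ i ∈ r, (OrderEmbedding.subtype fun i => i ∈ (s : Set I)) i ∈ t)
      (x : (T.obj r.card).α), w (D'.σ r x) = D.σ t (T.map (rho _ r t h) x))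
    (x : (T.obj s.card).α) : ∃ y : D'.G.α, w y = D.σ s x := by
  classical
  let r : Finset (s : Set I) := Finset.subtype (fun i => i ∈ (s : Set I)) s
  have hr : r.card = s.card := by
    rw [Finset.card_subtype]
    congr 1
    exact Finset.filter_true_of_mem fun i hi => Finset.mem_coe.2 hi
  have h : ∀ i ∈ r, (OrderEmbedding.subtype fun i => i ∈ (s : Set I)) i ∈ s := by
    intro i hi
    exact Finset.mem_coe.1 i.2
  let cst : Fin s.card ↪o Fin r.card := (Fin.castOrderIso hr.symm).toOrderEmbedding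
  refine ⟨D'.σ r (T.map cst x), ?_⟩
  rw [hw r s h]
  congr 1
  rw [← T.map_comp cst (rho _ r s h) (cst.trans (rho _ r s h)) (fun _ => rfl)]
  exact T.map_id _ _ (fin_emb_id _) x

theorem emx (dlm : DlmStmt.{u}) (dlu : DluStmt.{u}) : EmxStmt.{u} := by
  intro L κ K ⟨T⟩
  let D : ∀ (I : Type u) [LinearOrder I], DL T I := fun I _ =>
    Classical.choice (exists_dl dlm T I)
  let M : ∀ {I J : Type u} [LinearOrder I] [LinearOrder J], (I ↪o J) → K.Hom (D I).G (D J).G :=
    fun {I J} _ _ a => Classical.choose (exists_map dlu (D I) (D J) a)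
  have hM : ∀ {I J : Type u} [LinearOrder I] [LinearOrder J] (a : I ↪o J) (s : Finset I)
      (t : Finset J) (h : ∀ i ∈ s, a i ∈ t) (x : (T.obj s.card).α),
      M a ((D I).σ s x) = (D J).σ t (T.map (rho a s t h) x) := fun {I J} _ _ a =>
    Classical.choose_spec (exists_map dlu (D I) (D J) a)
  refine ⟨⟨fun I _ => (D I).G, M, ?_, ?_, fun I _ => dl_card_le (D I),
    fun I _ => dl_le_card (D I), ?_⟩⟩
  · intro I _ a ha y
    obtain ⟨s, x, rfl⟩ := (D I).surj y
    have h : ∀ i ∈ s, a i ∈ s := fun i hi => by rw [ha]; exact hi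
    rw [hM a s s h]
    congr 1
    exact T.map_id _ _ (fun i => en_inj (by rw [en_rho, ha])) x
  · intro I J H _ _ _ a b c hc y
    classical
    obtain ⟨s, x, rfl⟩ := (D I).surj y
    have h1 : ∀ i ∈ s, a i ∈ s.map a.toEmbedding := fun i hi =>
      Finset.mem_map_of_mem a.toEmbedding hi
    have h2 : ∀ i ∈ s.map a.toEmbedding, b i ∈ (s.map a.toEmbedding).map b.toEmbedding :=
      fun i hi => Finset.mem_map_of_mem b.toEmbedding hi
    have h3 : ∀ i ∈ s, c i ∈ (s.map a.toEmbedding).map b.toEmbedding := fun i hi => by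
      rw [hc]
      exact h2 _ (h1 i hi)
    rw [hM c s _ h3, hM a s _ h1, hM b _ _ h2]
    congr 1
    exact T.map_comp _ _ _ (fun i => rho_comp a b c hc s _ _ h1 h2 h3 i) x
  · intro I _ y
    obtain ⟨s, x, rfl⟩ := (D I).surj y
    obtain ⟨z, hz⟩ := dl_supp (D I) s (D (s : Set I)) (M _) (fun r t h x => hM _ r t h x) x
    exact ⟨s, z, hz⟩

end Pool.Agent.AEC.H52
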