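import Pool.Agent.AEC.StmtsB

open FirstOrder FirstOrder.Language Cardinal Set

universe u

namespace Pool.Agent.AEC.H52

theorem erd_step {n : ℕ} {C : Type u} {μ ν₀ : Cardinal.{u}} {W X : Type u} [LinearOrder W]
    [NoMaxOrder W] [Nonempty W] (c : Finset X → C) (z : W → X) (hz : Function.Injective z)
    (hW : ν₀ ≤ #W)
    (ih : ∀ (X : Type u), ν₀ ≤ #X → ∀ c : Finset X → C, ∃ Y : Set X, μ ≤ #Y ∧
      ∀ s t : Finset X, (s : Set X) ⊆ Y → (t : Set X) ⊆ Y → s.card = n → t.card = n → c s = c t)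
    (cs : Set X → C) (hcs : ∀ s : Finset X, cs s = c s)
    (h : ∀ (s : Finset W) (i j : W), (∀ a ∈ s, a < i) → (∀ a ∈ s, a < j) →
      cs (z '' (s : Set W) ∪ {z i}) = cs (z '' (s : Set W) ∪ {z j})) :
    ∃ Y : Set X, μ ≤ #Y ∧ ∀ s t : Finset X, (s : Set X) ⊆ Y → (t : Set X) ⊆ Y →
      s.card = n + 1 → t.card = n + 1 → c s = c t := by
  classical
  have hup : ∀ s : Finset W, ∃ i : W, ∀ a ∈ s, a < i := by
    intro s
    obtain ⟨M, hM⟩ := s.exists_le
    obtain ⟨i, hi⟩ := exists_gt M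
    exact ⟨i, fun a ha => (hM a ha).trans_lt hi⟩
  choose up hup using hup
  obtain ⟨Y', hY', hom⟩ := ih W hW fun s => cs (z '' (s : Set W) ∪ {z (up s)})
  refine ⟨z '' Y', by rw [Cardinal.mk_image_eq hz]; exact hY', ?_⟩
  have key : ∀ s : Finset X, (s : Set X) ⊆ z '' Y' → s.card = n + 1 →
      ∃ r : Finset W, (r : Set W) ⊆ Y' ∧ r.card = n ∧
        c s = cs (z '' (r : Set W) ∪ {z (up r)}) := by
    intro s hs hcard
    obtain ⟨s', hs'⟩ : ∃ s' : Finset W, s'.image z = s := by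
      refine ⟨s.preimage z hz.injOn, ?_⟩
      rw [Finset.image_preimage]
      refine Finset.filter_true_of_mem fun x hx => ?_
      obtain ⟨y, -, hy⟩ := hs (Finset.mem_coe.2 hx)
      exact ⟨y, hy⟩
    have hsub : (s' : Set W) ⊆ Y' := by
      intro a ha
      have h1 : z a ∈ (s : Set X) := by
        rw [← hs']
        exact Finset.mem_coe.2 (Finset.mem_image_of_mem z (Finset.mem_coe.1 ha))
      obtain ⟨y, hy, hy'⟩ := hs h1
      rw [← hz hy']
      exact hy
    have hc' : s'.card = n + 1 := by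
      rw [← hcard, ← hs', Finset.card_image_of_injective _ hz]
    have hne : s'.Nonempty := Finset.card_pos.1 (by omega)
    refine ⟨s'.erase (s'.max' hne), ?_, ?_, ?_⟩
    · exact (Finset.coe_subset.2 (Finset.erase_subset _ _)).trans hsub
    · rw [Finset.card_erase_of_mem (Finset.max'_mem _ _), hc']
      rfl
    · have h1 := h (s'.erase (s'.max' hne)) (s'.max' hne) (up (s'.erase (s'.max' hne)))
        (fun a ha => lt_of_le_of_ne (Finset.le_max' _ _ (Finset.mem_of_mem_erase ha))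
          (Finset.ne_of_mem_erase ha)) (hup _)
      rw [← h1, ← hcs s]
      congr 1
      rw [← hs', Finset.coe_image]
      ext x
      constructor
      · rintro ⟨a, ha, rfl⟩
        by_cases hm : a = s'.max' hne
        · right
          rw [hm]
          rfl
        · left
          exact ⟨a, Finset.mem_coe.2 (Finset.mem_erase.2 ⟨hm, Finset.mem_coe.1 ha⟩), rfl⟩
      · rintro (⟨a, ha, rfl⟩ | hx)
        · exact ⟨a, Finset.mem_coe.2 (Finset.mem_of_mem_erase (Finset.mem_coe.1 ha)), rfl⟩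
        · rw [mem_singleton_iff.1 hx]
          exact ⟨_, Finset.mem_coe.2 (Finset.max'_mem _ _), rfl⟩
  intro s t hs ht hsc htc
  obtain ⟨r, h1, h2, h3⟩ := key s hs hsc
  obtain ⟨r', h1', h2', h3'⟩ := key t ht htc
  rw [h3, h3']
  exact hom r r' h1 h1' h2 h2'

theorem erd (ehs : EhsStmt.{u}) : ErdStmt.{u} := by
  intro n
  induction n with
  | zero =>
    intro C μ
    refine ⟨μ, fun X hX c => ⟨univ, by rw [Cardinal.mk_univ]; exact hX, ?_⟩⟩
    intro s t _ _ hs ht
    rw [Finset.card_eq_zero.1 hs, Finset.card_eq_zero.1 ht]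
  | succ n ih =>
    intro C μ
    obtain ⟨ν₀, hν₀⟩ := ih C μ
    have h0 : ℵ₀ ≤ max ν₀ ℵ₀ := le_max_right _ _
    haveI : NoMaxOrder (max ν₀ ℵ₀).ord.ToType := Cardinal.noMaxOrder h0
    have hW : #((max ν₀ ℵ₀).ord.ToType) = max ν₀ ℵ₀ := Cardinal.mk_ord_toType _
    haveI : Nonempty (max ν₀ ℵ₀).ord.ToType := by
      rw [← Cardinal.mk_ne_zero_iff, hW]
      exact (Cardinal.aleph0_pos.trans_le h0).ne'
    refine ⟨Order.succ #(Σ i : (max ν₀ ℵ₀).ord.ToType, (Finset (Set.Iio i) → C)),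
      fun X hX c => ?_⟩
    classical
    obtain ⟨z, hz, h⟩ := ehs (max ν₀ ℵ₀).ord.ToType C X
      (fun T => if hT : T.Finite then c hT.toFinset else c ∅) (Order.succ_le_iff.1 hX)
    refine erd_step c z hz (by rw [hW]; exact le_max_left _ _) hν₀
      (fun T => if hT : T.Finite then c hT.toFinset else c ∅) ?_ h
    intro s
    rw [dif_pos s.finite_toSet]
    congr 1
    simp

end Pool.Agent.AEC.H52
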