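import Pool.Agent.AEC.StmtsZ

open FirstOrder FirstOrder.Language Cardinal Set

universe u

namespace Pool.Agent.AEC.H52

theorem ple : PleStmt.{u} := by
  classical
  intro A B Ω g φ hg hφ hcard
  obtain ⟨θ⟩ := hcard
  have h1 : ∀ (b : B) (h : ∃ a, g a = b) (a : A), g a = b → h.choose = a := fun b h a ha =>
    hg (h.choose_spec.trans ha.symm)
  refine ⟨fun b => if h : ∃ a, g a = b then φ h.choose else (θ b : Ω), ?_, ?_⟩
  · intro b b' hbb
    dsimp only at hbb
    by_cases h : ∃ a, g a = b
    · by_cases h' : ∃ a, g a = b'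
      · rw [dif_pos h, dif_pos h'] at hbb
        rw [← h.choose_spec, ← h'.choose_spec, hφ hbb]
      · rw [dif_pos h, dif_neg h'] at hbb
        exact absurd ⟨_, hbb⟩ (θ b').2
    · by_cases h' : ∃ a, g a = b'
      · rw [dif_neg h, dif_pos h'] at hbb
        exact absurd ⟨_, hbb.symm⟩ (θ b).2
      · rw [dif_neg h, dif_neg h'] at hbb
        exact θ.injective (Subtype.ext hbb)
  · intro x
    have h : ∃ a, g a = g x := ⟨x, rfl⟩
    show (if h : ∃ a, g a = g x then φ h.choose else (θ (g x) : Ω)) = φ x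
    rw [dif_pos h, h1 _ h x rfl]

end Pool.Agent.AEC.H52
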