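import Pool.Agent.AEC.StmtsS

/-!
# Squad AEC, row S_XVW: the elements with few images under automorphisms in `W τ T`
-/

set_option autoImplicit false

open FirstOrder FirstOrder.Language Cardinal Set

universe u

namespace Pool.Agent.AEC.S.H52

open Pool.Agent.AEC Pool.Agent.AEC.S

variable {L : FirstOrder.Language.{u, u}} {κ : Cardinal.{u}}

/-- elements without a tag are determined by their projection -/
theorem pr_inj {τ : Tpl L κ} {T : Type u} {x y : W τ T} (hx : x.tag = none) (hy : y.tag = none)
    (h : x.pr = y.pr) : x = y := by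
  rcases x with x | x
  · rcases y with y | y
    · exact congrArg Sum.inl (Subtype.ext h)
    · exact absurd hy (Option.some_ne_none _)
  · exact absurd hx (Option.some_ne_none _)

/-- elements without a tag are fixed by the induced maps -/
theorem fn_none {τ : Tpl L κ} {T : Type u} (f : T → T) {x : W τ T} (hx : x.tag = none) :
    W.fn f x = x := by
  rcases x with x | x
  · rfl
  · exact absurd hx (Option.some_ne_none _)

/-- a set of elements without tag is small -/
theorem small_none {τ : Tpl L κ} {T : Type u} {α : Type u} (g : α → W τ T)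
    (hg : Function.Injective g) (h : ∀ a, (g a).tag = none) : #α ≤ κ := by
  refine le_trans ?_ τ.card
  exact Cardinal.mk_le_of_injective (f := fun a => (g a).pr)
    fun a b hab => hg (pr_inj (h a) (h b) hab)

theorem xvw (hW : WgrStmt.{u}) (hA : AutStmt.{u}) : XvwStmt.{u} := by
  classical
  intro L _ κ τ T hκ hT
  obtain ⟨hw1, hw2, -⟩ := hW L κ τ T hκ hT
  have hSvtag : ∀ x : W τ T, x ∈ Sv L κ (W τ T) → x.tag = none := fun x hx => ((hw1 x).mp hx).1
  have hinv : ∀ (e : W τ T ≃[L] W τ T) (y : W τ T), y ∈ Sv L κ (W τ T) → e y ∈ Sv L κ (W τ T) := by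
    intro e y hy
    rw [← (hA L κ (W τ T) (W τ T) e).2.1]
    exact ⟨y, hy, rfl⟩
  refine ⟨?_, ?_, ?_⟩
  · intro x hx
    by_contra hne
    rcases x with x | ⟨t, a⟩
    · exact hne rfl
    · have hx' : #{y : W τ T // ∃ e : W τ T ≃[L] W τ T, e (Sum.inr (t, a)) = y} ≤ κ := hx
      refine absurd (le_trans ?_ hx') (not_le.mpr hT)
      refine Cardinal.mk_le_of_injective (f := fun t' : T =>
        (⟨W.hi t' a, W.eqv (Equiv.swap t t'), ?_⟩ :
          {y : W τ T // ∃ e : W τ T ≃[L] W τ T, e (Sum.inr (t, a)) = y})) ?_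
      · show W.fn (Equiv.swap t t') (W.hi t a) = W.hi t' a
        show W.hi (Equiv.swap t t' t) a = W.hi t' a
        rw [Equiv.swap_apply_left]
      · intro t₁ t₂ h
        have h1 : (W.hi t₁ a : W τ T) = W.hi t₂ a := congrArg Subtype.val h
        have h2 := Sum.inr_injective h1
        exact (Prod.mk.inj h2).1
  · intro x hx
    refine small_none (τ := τ) (T := T) (fun y => y.1) Subtype.val_injective ?_
    rintro ⟨y, e, rfl⟩
    exact hSvtag _ (hinv e x hx)
  · intro x hx
    by_cases hx0 : x.tag = none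
    swap
    · exact ⟨FirstOrder.Language.Equiv.refl L _, fun y _ => rfl, hx0⟩
    -- an automorphism which maps `x` to an element with a tag
    obtain ⟨e₁, t, ht⟩ : ∃ (e₁ : W τ T ≃[L] W τ T) (t : T), (e₁ x).tag = some t := by
      by_contra hcon
      push Not at hcon
      apply hx
      refine small_none (τ := τ) (T := T) (fun y => y.1) Subtype.val_injective ?_
      rintro ⟨y, e, rfl⟩
      show (e x).tag = none
      rw [Option.eq_none_iff_forall_not_mem]
      intro t ht
      exact hcon e t ht
    obtain ⟨a, ha⟩ := τ.ne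
    obtain ⟨t', t'', ht''⟩ : ∃ t' t'' : T, (e₁.symm (W.hi t' ⟨a, ha⟩)).tag = some t'' := by
      by_contra hcon
      push Not at hcon
      refine absurd (small_none (τ := τ) (T := T) (fun t' => e₁.symm (W.hi t' ⟨a, ha⟩)) ?_ ?_)
        (not_le.mpr hT)
      · intro t₁ t₂ h
        have h1 : (W.hi t₁ ⟨a, ha⟩ : W τ T) = W.hi t₂ ⟨a, ha⟩ := e₁.symm.injective h
        have h2 := Sum.inr_injective h1
        exact (Prod.mk.inj h2).1
      · intro t'
        rw [Option.eq_none_iff_forall_not_mem]
        intro t₀ ht₀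
        exact hcon t' t₀ ht₀
    -- the set of the elements mapped to the copy `t'` is the copy `t''`
    have hD : ∀ z : W τ T, (e₁ z).tag = some t' → z.tag = some t'' := by
      intro z hz
      have h1 := hw2 t' ⟨a, ha⟩
      have h2 := (hA L κ (W τ T) (W τ T) e₁.symm).2.2.2.1 (Sv L κ (W τ T)) (W.hi t' ⟨a, ha⟩)
      rw [(hA L κ (W τ T) (W τ T) e₁.symm).2.1, h1] at h2
      have h3 : z ∈ e₁.symm '' {x : W τ T | x.tag = some t'} :=
        ⟨e₁ z, hz, e₁.symm_apply_apply z⟩
      rw [h2] at h3
      obtain ⟨b, hb⟩ : ∃ b : τ.A, e₁.symm (W.hi t' ⟨a, ha⟩) = W.hi t'' b := by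
        generalize e₁.symm (W.hi t' ⟨a, ha⟩) = w at ht''
        rcases w with w | ⟨t₀, b⟩
        · exact absurd ht''.symm (Option.some_ne_none _)
        · refine ⟨b, ?_⟩
          have : t₀ = t'' := Option.some.inj ht''
          rw [← this]
          rfl
      rw [hb, hw2 t'' b] at h3
      exact h3
    refine ⟨e₁.symm.comp ((W.eqv (Equiv.swap t t')).comp e₁), ?_, ?_⟩
    · intro y hy
      show e₁.symm (W.fn (Equiv.swap t t') (e₁ y)) = y
      rw [fn_none _ (hSvtag _ (hinv e₁ y hy)), e₁.symm_apply_apply]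
    · have h1 : (e₁ (e₁.symm (W.fn (Equiv.swap t t') (e₁ x)))).tag = some t' := by
        rw [e₁.apply_symm_apply, W.tag_fn, ht, Option.map_some, Equiv.swap_apply_left]
      have h2 := hD _ h1
      show (e₁.symm (W.fn (Equiv.swap t t') (e₁ x))).tag ≠ none
      rw [h2]
      exact Option.some_ne_none _

end Pool.Agent.AEC.S.H52
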